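import Pool.Agent.V11257.Zt9

/-!
# A union of a sequence of c-delta-embedded N-compact subspaces that is not N-compact

In a symmetric model of ZF there is a sequence of sets `A n`, each of them a copy of the set of the
integers up to translations, such that every set is invariant under the translations of almost all
of them. The space is the ordered space `p 0 < A 0 < p 1 < A 1 < ...`. Every continuous function
from it to the natural numbers has the same value at almost all points `p n`, so that it has a
limit at infinity, and the space is not N-compact. The initial segments up to `p n` are N-compact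
(they are closed subspaces of a Cantor cube), and they are retracts of the space.
-/

namespace Pool.Agent.Results.MP_591233_lc.CdEmbeddedUnion

open FirstOrder FirstOrder.Language
open Pool.Agent.Helper672.Plain (LSet)
open Pool.Agent.H635Amen (ZF)
open Pool.Agent.H310Cards (App)
open Pool.Agent.H310Top (IsTopology)
open Pool.Agent.V11246 (IsT1 IsZeroDim IsNCompact)
open Pool.Agent.V11257Z

universe u

/-- In the model `N` there is a zero-dimensional T1 space `x` with the topology `t` that is the
union of a sequence `f` of c-delta-embedded N-compact subspaces, but is not N-compact. -/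
def HasSpace (N : Type u) [LSet.Structure N] : Prop :=
  ∃ x t f : N, IsTopology t x ∧ IsT1 t x ∧ IsZeroDim t x ∧ IsSeqUnion f x ∧
    (∀ n y, App f n y → IsNCompactSub t y ∧ IsCdEmbedded t x y) ∧ ¬ IsNCompact t x

/-- There is a model of ZF with such a space; and for every model of ZF there is one (in the same
universe). -/
theorem result : (∃ (N : Type 1) (_ : LSet.Structure N), ZF N ∧ HasSpace N) ∧
    ∀ (M : Type u) [LSet.Structure M], ZF M →
      ∃ (N : Type u) (_ : LSet.Structure N), ZF N ∧ HasSpace N := by
  refine ⟨exists_of_forall fun M _ hM => ?_, fun M _ hM => ?_⟩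
  · obtain ⟨N, i, hN, hT⟩ := exists_zt M hM
    obtain ⟨x, t, h1, h2, h3, ⟨f, h4, h5⟩, h6⟩ := space_nco_of hT
    exact ⟨N, i, hN, x, t, f, h1, h2, h3, h4, fun n u hu => ⟨(h5 n u hu).1, (h5 n u hu).2.2⟩, h6⟩
  · obtain ⟨N, i, hN, hT⟩ := exists_zt M hM
    obtain ⟨x, t, h1, h2, h3, ⟨f, h4, h5⟩, h6⟩ := space_nco_of hT
    exact ⟨N, i, hN, x, t, f, h1, h2, h3, h4, fun n u hu => ⟨(h5 n u hu).1, (h5 n u hu).2.2⟩, h6⟩

end Pool.Agent.Results.MP_591233_lc.CdEmbeddedUnion
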